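import Pool.Agent.Lib.MP_144d21_co.PSI.Iface

/-!
# MP_144d21_co, project XU3, part PSI, module KCOMP: the Kempe components of a colouring
-/

set_option autoImplicit false

namespace Pool.Agent.Xu.H47

open Finset

variable {V : Type} [Fintype V] [DecidableEq V]

omit [Fintype V] in
theorem comp_le {G : SimpleGraph V} {S : Finset V} {c : V → ℕ} {i j : ℕ} {D D' : Finset V}
    (h : IsComp G S c i j D) (h' : IsComp G S c i j D') {v : V} (hv : v ∈ D) (hv' : v ∈ D') :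
    D ⊆ D' := by
  by_contra hne
  have h1 : D ∩ D' ≠ D := fun e => hne (Finset.inter_eq_left.1 e)
  obtain ⟨a, ha, b, hb, hab, hadj⟩ := h.conn.2 (D ∩ D') inter_subset_left
    ⟨v, mem_inter.2 ⟨hv, hv'⟩⟩ h1
  exact hab (mem_inter.2 ⟨hb, h'.closed a (mem_inter.1 ha).2 b (h.sub hb) (h.col b hb) hadj⟩)

omit [Fintype V] in
theorem comp_eq {G : SimpleGraph V} {S : Finset V} {c : V → ℕ} {i j : ℕ} {D D' : Finset V}
    (h : IsComp G S c i j D) (h' : IsComp G S c i j D') {v : V} (hv : v ∈ D) (hv' : v ∈ D') :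
    D = D' :=
  subset_antisymm (comp_le h h' hv hv') (comp_le h' h hv' hv)

theorem exists_comp {G : SimpleGraph V} {S : Finset V} {c : V → ℕ} {i j : ℕ} {v : V}
    (hvS : v ∈ S) (hv : c v = i ∨ c v = j) : ∃ D, IsComp G S c i j D ∧ v ∈ D := by
  classical
  set W : Finset V := S.filter fun x => c x = i ∨ c x = j with hW
  have hvW : v ∈ W := mem_filter.2 ⟨hvS, hv⟩
  set cl : Finset V → Prop := fun X => ∀ a ∈ X, ∀ b ∈ W, G.Adj a b → b ∈ X with hcl
  set D : Finset V := W.filter fun x => ∀ X ⊆ W, v ∈ X → cl X → x ∈ X with hD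
  have hmin : ∀ X ⊆ W, v ∈ X → cl X → D ⊆ X := fun X h1 h2 h3 x hx =>
    (mem_filter.1 hx).2 X h1 h2 h3
  have hDW : D ⊆ W := filter_subset _ _
  have hvD : v ∈ D := mem_filter.2 ⟨hvW, fun X _ h _ => h⟩
  have hclD : cl D := by
    intro a ha b hb hab
    refine mem_filter.2 ⟨hb, fun X h1 h2 h3 => ?_⟩
    exact h3 a (hmin X h1 h2 h3 ha) b hb hab
  refine ⟨D, ⟨?_, ?_, ⟨⟨v, hvD⟩, ?_⟩, ?_⟩, hvD⟩
  · exact hDW.trans (filter_subset _ _)
  · intro x hx
    exact (mem_filter.1 (hDW hx)).2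
  · intro A hA hAne hAD
    by_contra hcon
    push Not at hcon
    have key : ∀ a ∈ A, ∀ b ∈ W, G.Adj a b → b ∈ A := by
      intro a ha b hb hab
      by_contra hbA
      exact hcon a ha b (hclD a (hA ha) b hb hab) hbA hab
    by_cases hvA : v ∈ A
    · exact hAD (subset_antisymm hA (hmin A (hA.trans hDW) hvA key))
    · have h2 : D ⊆ D \ A := by
        refine hmin (D \ A) (sdiff_subset.trans hDW) (mem_sdiff.2 ⟨hvD, hvA⟩) ?_
        intro a ha b hb hab
        rw [mem_sdiff] at ha ⊢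
        refine ⟨hclD a ha.1 b hb hab, fun hbA => ha.2 ?_⟩
        exact key b hbA a (hDW ha.1) hab.symm
      obtain ⟨x, hx⟩ := hAne
      exact (mem_sdiff.1 (h2 (hA hx))).2 hx
  · intro a ha b hb hcb hab
    exact hclD a ha b (mem_filter.2 ⟨hb, hcb⟩) hab

omit [Fintype V] in
theorem wv_ne {G : SimpleGraph V} {S : Finset V} {c : V → ℕ} {x : KC G S c} {v : V} :
    wv ℝ x v ≠ 0 ↔ v ∈ x.1.2 := by
  unfold wv
  by_cases hv : v ∈ x.1.2
  · rw [if_pos hv]
    refine ⟨fun _ => hv, fun _ => ?_⟩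
    split_ifs <;> norm_num
  · rw [if_neg hv]
    exact ⟨fun h => (h rfl).elim, fun h => (hv h).elim⟩

theorem kcomp : KcompS := by
  intro V _ _ G S c hc
  obtain ⟨hc1, hc2, hc3⟩ := mem_cols.1 hc
  have huniq : ∀ (x y : KC G S c) (v : V), x.1.1 = y.1.1 → v ∈ x.1.2 → v ∈ y.1.2 → x = y := by
    rintro ⟨⟨s, D⟩, hs, h⟩ ⟨⟨s', D'⟩, hs', h'⟩ v e hv hv'
    simp only at e hv hv'
    subst e
    have : D = D' := comp_eq h h' hv hv'
    subst this
    rfl
  refine ⟨?_, ?_, ?_, ?_, ?_⟩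
  · intro v hv
    have h3 : (prs.filter fun s => c v = s.1 ∨ c v = s.2).card = 3 := by
      have := hc1 v hv
      generalize c v = k at this
      interval_cases k <;> decide
    rw [← h3]
    refine card_bij (fun x _ => x.1.1) ?_ ?_ ?_
    · intro x hx
      rw [mem_inc, wv_ne] at hx
      exact mem_filter.2 ⟨x.2.1, x.2.2.col v hx⟩
    · intro x hx y hy e
      rw [mem_inc, wv_ne] at hx hy
      exact huniq x y v e hx hy
    · intro s hs
      obtain ⟨hs1, hs2⟩ := mem_filter.1 hs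
      obtain ⟨D, hD, hvD⟩ := exists_comp (G := G) hv hs2
      let x : KC G S c := ⟨(s, D), hs1, hD⟩
      exact ⟨x, mem_inc.2 ((wv_ne (x := x)).2 hvD), rfl⟩
  · intro v hv
    rw [eq_empty_iff_forall_notMem]
    intro x hx
    rw [mem_inc, wv_ne] at hx
    exact hv (x.2.2.sub hx)
  · intro x
    obtain ⟨v, hv⟩ := x.2.2.conn.1
    exact ⟨v, wv_ne.2 hv⟩
  · intro x y v e hx hy
    exact huniq x y v e (wv_ne.1 hx) (wv_ne.1 hy)
  · intro u hu v hv hadj
    have hne := hc3 u hu v hv hadj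
    have hu4 := hc1 u hu
    have hv4 := hc1 v hv
    obtain ⟨s, hs, h1, h2⟩ : ∃ s ∈ prs, (c u = s.1 ∨ c u = s.2) ∧ (c v = s.1 ∨ c v = s.2) := by
      generalize c u = k at hne hu4 ⊢
      generalize c v = l at hne hv4 ⊢
      interval_cases k <;> interval_cases l <;> first | exact (hne rfl).elim | decide
    obtain ⟨D, hD, huD⟩ := exists_comp (G := G) hu h1
    refine ⟨⟨(s, D), hs, hD⟩, wv_ne.2 huD, wv_ne.2 ?_⟩
    exact hD.closed u huD v hv h2 hadj

end Pool.Agent.Xu.H47
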