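import Pool.Agent.Lib.MP_144d21_co.PSI.Iface

/-!
# MP_144d21_co, project XU3, part PSI, module LEX: lowest monomials and triangular substitutions
-/

set_option autoImplicit false

namespace Pool.Agent.Xu.H47

open Finset

variable {R : Type} [CommRing R] {n : ℕ}

theorem lx_iff {a b : Fin n →₀ ℕ} : Lx a b ↔ toLex a < toLex b := by
  rw [Finsupp.Lex.lt_iff]
  exact Iff.rfl

/-- `a` is the lowest monomial of `P`, with coefficient `r` (possibly `0`) -/
def UU (a : Fin n →₀ ℕ) (r : R) (P : MvPolynomial (Fin n) R) : Prop :=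
  P.coeff a = r ∧ ∀ b : Fin n →₀ ℕ, Lx b a → P.coeff b = 0

theorem UU.mul {a a' : Fin n →₀ ℕ} {r r' : R} {P P' : MvPolynomial (Fin n) R} (h : UU a r P)
    (h' : UU a' r' P') : UU (a + a') (r * r') (P * P') := by
  classical
  have key : ∀ c : Fin n →₀ ℕ, toLex c ≤ toLex (a + a') → ∀ x ∈ antidiagonal c,
      x ≠ (a, a') → P.coeff x.1 * P'.coeff x.2 = 0 := by
    rintro c hc ⟨b, b'⟩ hx hne
    rw [HasAntidiagonal.mem_antidiagonal] at hx
    simp only at hx ⊢
    subst hx
    rcases lt_trichotomy (toLex b) (toLex a) with h1 | h1 | h1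
    · rw [h.2 b (lx_iff.2 h1), zero_mul]
    · have e : b = a := toLex.injective h1
      subst e
      have h2 : toLex b' ≤ toLex a' := by
        by_contra hcon
        rw [not_le] at hcon
        have : toLex b + toLex a' < toLex b + toLex b' := by gcongr
        exact absurd (lt_of_lt_of_le this hc) (lt_irrefl _)
      rcases h2.lt_or_eq with h3 | h3
      · rw [h'.2 b' (lx_iff.2 h3), mul_zero]
      · exact (hne (by rw [toLex.injective h3])).elim
    · have h2 : toLex b' < toLex a' := by
        by_contra hcon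
        rw [not_lt] at hcon
        have : toLex a + toLex a' < toLex b + toLex b' := add_lt_add_of_lt_of_le h1 hcon
        exact absurd (lt_of_lt_of_le this hc) (lt_irrefl _)
      rw [h'.2 b' (lx_iff.2 h2), mul_zero]
  refine ⟨?_, fun c hc => ?_⟩
  · rw [MvPolynomial.coeff_mul, sum_eq_single (a, a'), h.1, h'.1]
    · exact key (a + a') le_rfl
    · intro hx
      exact (hx (HasAntidiagonal.mem_antidiagonal.2 rfl)).elim
  · rw [MvPolynomial.coeff_mul]
    refine sum_eq_zero fun x hx => ?_
    refine key c (lx_iff.1 hc).le x hx ?_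
    rintro rfl
    rw [HasAntidiagonal.mem_antidiagonal] at hx
    simp only at hx
    rw [← hx] at hc
    exact lt_irrefl _ (lx_iff.1 hc)

theorem UU.one : UU (0 : Fin n →₀ ℕ) (1 : R) (1 : MvPolynomial (Fin n) R) := by
  refine ⟨MvPolynomial.coeff_zero_one, fun b hb => ?_⟩
  obtain ⟨i, _, hi⟩ := hb
  exact (Nat.not_lt_zero _ hi).elim

theorem UU.pow {a : Fin n →₀ ℕ} {r : R} {P : MvPolynomial (Fin n) R} (h : UU a r P) (m : ℕ) :
    UU (m • a) (r ^ m) (P ^ m) := by
  induction m with
  | zero => simpa using UU.one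
  | succ m ih =>
    rw [pow_succ, pow_succ, succ_nsmul]
    exact ih.mul h

theorem UU.prod {ι : Type} (s : Finset ι) {a : ι → Fin n →₀ ℕ} {r : ι → R}
    {P : ι → MvPolynomial (Fin n) R} (h : ∀ i ∈ s, UU (a i) (r i) (P i)) :
    UU (∑ i ∈ s, a i) (∏ i ∈ s, r i) (∏ i ∈ s, P i) := by
  classical
  induction s using Finset.induction_on with
  | empty => simpa using UU.one
  | insert i s hi ih =>
    rw [sum_insert hi, prod_insert hi, prod_insert hi]
    exact (h i (mem_insert_self _ _)).mul (ih fun k hk => h k (mem_insert_of_mem hk))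

/-- the linear form of row `k` of a lower triangular matrix -/
theorem UU.row {M : Matrix (Fin n) (Fin n) R} (hM : ∀ k i, k < i → M k i = 0) (k : Fin n) :
    UU (Finsupp.single k 1) (M k k)
      (∑ i, MvPolynomial.C (M k i) * MvPolynomial.X i : MvPolynomial (Fin n) R) := by
  classical
  have hco : ∀ b : Fin n →₀ ℕ, (∑ i, MvPolynomial.C (M k i) * MvPolynomial.X i :
      MvPolynomial (Fin n) R).coeff b = ∑ i, if Finsupp.single i 1 = b then M k i else 0 := by
    intro b
    rw [MvPolynomial.coeff_sum]
    refine sum_congr rfl fun i _ => ?_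
    rw [MvPolynomial.coeff_C_mul, MvPolynomial.coeff_X, mul_ite, mul_one, mul_zero]
  refine ⟨?_, fun b hb => ?_⟩
  · rw [hco, sum_eq_single k]
    · rw [if_pos rfl]
    · intro i _ hik
      rw [if_neg]
      intro e
      exact hik (Finsupp.single_left_injective one_ne_zero e)
    · intro h
      exact (h (mem_univ k)).elim
  · rw [hco]
    refine sum_eq_zero fun i _ => ?_
    by_cases e : Finsupp.single i 1 = b
    · subst e
      rw [if_pos rfl]
      refine hM k i ?_
      by_contra hik
      rw [not_lt] at hik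
      obtain ⟨l, h1, h2⟩ := hb
      rcases hik.lt_or_eq with h3 | h3
      · rcases lt_trichotomy l i with h4 | h4 | h4
        · rw [Finsupp.single_apply, Finsupp.single_apply, if_neg h4.ne', if_neg (h4.trans h3).ne']
            at h2
          exact lt_irrefl _ h2
        · subst h4
          rw [Finsupp.single_apply, Finsupp.single_apply, if_pos rfl, if_neg h3.ne'] at h2
          exact absurd h2 (by norm_num)
        · have := h1 i h4
          rw [Finsupp.single_apply, Finsupp.single_apply, if_pos rfl, if_neg h3.ne'] at this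
          exact one_ne_zero this
      · subst h3
        exact lt_irrefl _ h2
    · rw [if_neg e]

theorem lex : LexS := by
  intro R _ n j M P a hM hP hlow
  have e : ∀ v : Fin n, (MvPolynomial.C ((0 : Fin n → R) v) +
      ∑ k, MvPolynomial.C (M v k) * MvPolynomial.X k : MvPolynomial (Fin n) R) =
      ∑ k, MvPolynomial.C (M v k) * MvPolynomial.X k := fun v => by
    rw [Pi.zero_apply, MvPolynomial.C_0, zero_add]
  have e1 : (sbt 0 M P).coeff a = ∑ d ∈ P.support, P.coeff d *
      (∏ v, (∑ k, MvPolynomial.C (M v k) * MvPolynomial.X k : MvPolynomial (Fin n) R) ^ d v).coeff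
        a := by
    unfold sbt
    simp only [e]
    rw [MvPolynomial.aeval_def, MvPolynomial.eval₂_eq', MvPolynomial.coeff_sum]
    refine sum_congr rfl fun d _ => ?_
    rw [MvPolynomial.algebraMap_eq, MvPolynomial.coeff_C_mul]
  have hU : ∀ d : Fin n →₀ ℕ, UU d (∏ k, M k k ^ d k)
      (∏ v, (∑ k, MvPolynomial.C (M v k) * MvPolynomial.X k : MvPolynomial (Fin n) R) ^ d v) := by
    intro d
    have := UU.prod univ fun v _ => (UU.row hM v).pow (d v)
    have e2 : ∑ v, d v • (Finsupp.single v 1 : Fin n →₀ ℕ) = d := by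
      ext i
      rw [Finsupp.finsetSum_apply, sum_eq_single i]
      · simp
      · intro v _ hv
        simp [hv]
      · intro h
        exact (h (mem_univ i)).elim
    rwa [e2] at this
  have hH : ∀ d : Fin n →₀ ℕ,
      (∏ v, (∑ k, MvPolynomial.C (M v k) * MvPolynomial.X k :
        MvPolynomial (Fin n) R) ^ d v).IsHomogeneous d.degree := by
    intro d
    have : d.degree = ∑ v, 1 * d v := by
      rw [Finsupp.degree_eq_sum]
      simp
    rw [this]
    refine MvPolynomial.IsHomogeneous.prod _ _ _ fun v _ => ?_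
    refine MvPolynomial.IsHomogeneous.pow ?_ _
    exact MvPolynomial.IsHomogeneous.sum _ _ _ fun k _ => MvPolynomial.isHomogeneous_C_mul_X _ _
  rw [e1, sum_eq_single a]
  · rw [(hU a).1, mul_comm]
  · intro d hd hda
    rw [MvPolynomial.mem_support_iff] at hd
    rcases lt_trichotomy d.degree j with h | h | h
    · exact (hd (hP d h)).elim
    · rw [(hU d).2 a (hlow.2 d h hd hda), mul_zero]
    · rw [(hH d).coeff_eq_zero (by rw [hlow.1]; exact h.ne), mul_zero]
  · intro h
    rw [MvPolynomial.notMem_support_iff] at h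
    rw [h, zero_mul]

end Pool.Agent.Xu.H47
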